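import Mathlib

/-! # Kernel-checked enumeration for the 19-vertex counterexample -/

namespace Q110.BC

/-- distance table -/
def T2 : Nat := 0x1243456788a9abccde10132345677989abbcd210212345668789aabc432012345668789aabc32110123455767899ab432210123446567889a54332101233545677896544321012243456678765543210113234556787665432101323455678766543211021234456a9887654332012344569877654322110123345a988765433221012234ba99876544332101123cbaa987655443210123cbaa987655443211012dcbba98766554322101edccba9877665433210
/-- ball table -/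
def BT : Nat := 0xffffffffffffff7fffcfffe1fff83ffa07ff00ff801fe003f8007e000e8001c0003000040000ffffffffffffffffffeffff9fffc3fff07ff40ffe01ff003fc007f000fc001d0003800020000fffffffffffffffffffffffdffff3fff87ffe0ffe81ffc03fe007f800fe001f8001a00010000fffffffffffffffffffffffdffff3fff87ffe0ffe81ffc03fe007f8007e00078000600008000ffffffffffffffffffffffffffffbfffe7fff0fffc1ffd03ff807fc00ff000fc000f00004000fffffffffffffffffffffffffffffffff7fffcfffe1fff83ffa07ff007f8007e000380002000fffffffffffffffffffffffffffffffffffffeffff9fffc3fff03ff403fe001f0001c0001000ffffffffffffffffffffffffffffffffffffffffffdffff1fff81ffe00fe800fc000e0000800ffffffffffffffffffffffffffffffffffffffffffeffff8fffe07ff007fc007d00078000400ffffffffffffffffffffffffffffffffffffff7fffe7fff83ffe03ff003fc003d00038000200ffffffffffffffffffffffffffffffffffffff7fffe7fffc3fff03ffc03fe003f8003a000100ffffffffffffffffffffffffffffdffff9ffff0fffe0fffc0fff00ffc00fe000780006000080fffffffffffffffffffffffffffffffffbffff3fffe1fffc1fff81ffe01ff801fc000f000040ffffffffffffffffffffffffffffdffff9ffff0fffe0fffc0fff80fff00ffc007f0003800020fffffffffffffffffffffffeffffcffff87fff07ffe07ffc07ff807ff003fe001f8001e00010fffffffffffffffffff7fffe7fffc3fff83fff03ffe03ffc03ff801ff000fe000f8000e00008fffffffffffffffffff7fffe7fffc3fff83fff03ffe03ffc03ff801ff000fe000fc000f00004ffffffffffffffbffff3fffe1fffc1fff81fff01ffe01ffc00ff8007f0007e0007c000380002fffffffffdffff9ffff0fffe0fffc0fff80fff00ffe007fc003f8003f0003e0001c000180001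
/-- balls that the vertices `≥ v` can cover with radius `left + 1` -/
def FT : Nat := 0xffe01ff003fc007f000fc001d0003800000000ffe81ffc03fe007f800fe001f8003a00000000fffc1ffd03ff807fc00ff001fc003f00000000fffc1ffd03ff807fc00ff001fc003f00000000fffe1fff83ffa07ff00ff801fe003f80000000ffff9fffc3fff07ff40ffe01ff003fc0000000ffffdffff3fff87ffe0ffe81ffc03fe0000000fffffffffbfffe7fff0fffc1ffd03ff8000000ffffffffffffff7fffcfffe1fff83ffa000000ffffffffffffff7fffcfffe1fff83ffa000000ffffffffffffffffffeffff9fffc3fff000000ffffffffffffffffffeffff9fffc3fff000000fffffffffffffffffffffffdffff3fff800000ffffffffffffffffffffffffffffbfffe00000fffffffffffffffffffffffffffffffff00000fffffffffffffffffffffffffffffffff00000fffffffffffffffffffffffffffffffff80000fffffffffffffffffffffffffffffffff80000fffffffffffffffffffffffffffffffff80000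
/-- eccentricities -/
def ET : Nat := 0xedccba98788a9abccde

def dd (i j : Nat) : Nat := (T2 >>> (4 * (19 * i + j))) % 16
def ec (i : Nat) : Nat := (ET >>> (4 * i)) % 16
def bl (v k : Nat) : Nat := (BT >>> (19 * (16 * v + k))) % 524288
def fu (v left : Nat) : Nat := (FT >>> (19 * (8 * v + left))) % 524288

/-- vertices relevant for the private boundary of a vertex with value `k` -/
def sp (v k : Nat) : Nat := bif Nat.ble k 1 then bl v 1 else Nat.xor (bl v k) (bl v (k - 1))

/-- set difference of bit masks -/
def sdf (a b : Nat) : Nat := Nat.xor a (Nat.land a b)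

/-- private boundaries of the members of a list of pairs (vertex, value) -/
def pbs : List (Nat × Nat) → List Nat
  | [] => []
  | p :: L => sdf (sp p.1 p.2) (L.foldr (fun q a => Nat.lor (bl q.1 q.2) a) 0) ::
      (pbs L).map (fun m => sdf m (bl p.1 p.2))

def uOf (L : List (Nat × Nat)) : Nat := L.foldr (fun q a => Nat.lor (bl q.1 q.2) a) 0
def nOf (L : List (Nat × Nat)) : Nat := L.foldr (fun q a => Nat.lor (bl q.1 (q.2 + 1)) a) 0

/-- all masks are nonzero -/
def nz (P : List Nat) : Bool := P.all fun m => !(Nat.beq m 0)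

def raise (v : Nat) (L : List (Nat × Nat)) : List (Nat × Nat) :=
  L.map fun p => bif Nat.beq p.1 v then (p.1, p.2 + 1) else p

def L0 : List (Nat × Nat) := [(17, 1), (16, 1), (10, 1), (8, 1), (4, 1), (2, 1)]

def leafOK (L : List (Nat × Nat)) (P : List Nat) (U : Nat) : Bool :=
  (List.range 19).any (fun z =>
    !(Nat.beq (sdf (sp z 1) U) 0) && nz (P.map fun m => sdf m (bl z 1)) &&
      L.all (fun p => !(Nat.beq p.1 z))) ||
  L.any (fun p => nz (pbs (raise p.1 L))) ||
  (L.any (fun p => Nat.beq p.1 8) && L.any (fun p => Nat.beq p.1 10) &&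
    nz (pbs (raise 8 (raise 10 L)))) || L == L0

def go : Nat → Nat → List (Nat × Nat) → List Nat → Nat → Nat → Bool
  | 0, _, L, P, U, N => !(Nat.beq N 524287) || leafOK L P U
  | m + 1, left, L, P, U, N =>
      bif Nat.beq (Nat.lor N (fu (18 - m) left)) 524287 then
        go m left L P U N &&
        (List.range left).all (fun j =>
          let b := bl (18 - m) (j + 1)
          let P' := sdf (sp (18 - m) (j + 1)) U :: P.map (fun x => sdf x b)
          !(nz P') || go m (left - (j + 1)) ((18 - m, j + 1) :: L) P' (Nat.lor b U)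
            (Nat.lor (bl (18 - m) (j + 2)) N))
      else true

theorem go_full : go 19 6 [] [] 0 0 = true := by decide +kernel

def goA : List Nat → List (Nat × Nat) → List Nat → Nat → Bool
  | [], L, _, _ => L == L0
  | v :: vs, L, P, U =>
      (List.range 14).all (fun j =>
        let b := bl v (j + 1)
        let P' := sdf (sp v (j + 1)) U :: P.map (fun x => sdf x b)
        !(nz P') || goA vs ((v, j + 1) :: L) P' (Nat.lor b U))

theorem goA_full : goA [2, 4, 8, 10, 16, 17] [] [] 0 = true := by decide +kernel

theorem addA : ∀ z ∈ [0, 1, 3, 5, 6, 7, 9, 11, 12, 13, 14, 15, 18], ∀ k < 14,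
    nz (pbs ((z, k + 1) :: L0)) = false := by decide +kernel

theorem nz_L0 : nz (pbs L0) = true := by decide +kernel

theorem dd_self : ∀ u < 19, dd u u = 0 := by decide +kernel

theorem bl_testBit : ∀ v < 19, ∀ k < 16, ∀ u < 19,
    (bl v k).testBit u = decide (dd u v ≤ k) := by decide +kernel

theorem sp_testBit : ∀ v < 19, ∀ k < 16, 1 ≤ k → ∀ u < 19,
    (sp v k).testBit u = decide (dd u v ≤ k ∧ (k ≤ 1 ∨ k - 1 < dd u v)) := by decide +kernel

theorem sp_lt : ∀ v < 19, ∀ k < 16, sp v k < 2 ^ 19 := by decide +kernel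

def fuChk : Bool :=
  (List.range 19).all fun j => (List.range 6).all fun l => (List.range 19).all fun w =>
    (List.range 19).all fun z =>
      (fu j (l + 1)).testBit w || Nat.blt z j || Nat.blt (l + 2) (dd w z)

theorem fuChk_true : fuChk = true := by decide +kernel

theorem fu_spec (j : ℕ) (hj : j < 19) (l : ℕ) (hl : l < 6) (w : ℕ) (hw : w < 19) (z : ℕ)
    (hz : z < 19) (hb : (fu j (l + 1)).testBit w = false) (hjz : j ≤ z) :
    l + 2 < dd w z := by
  have h := fuChk_true
  simp only [fuChk, List.all_eq_true, List.mem_range] at h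
  have h2 := h j hj l hl w hw z hz
  rw [hb] at h2
  simp only [Bool.false_or, Bool.or_eq_true] at h2
  rcases h2 with h2 | h2
  · exact absurd (Nat.blt_eq.mp h2) (by omega)
  · exact Nat.blt_eq.mp h2

theorem fu_lt : ∀ j left, fu j left < 2 ^ 19 := fun _ _ => Nat.mod_lt _ (by norm_num)

theorem bl_lt : ∀ v k, bl v k < 2 ^ 19 := fun _ _ => Nat.mod_lt _ (by norm_num)

end Q110.BC
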