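import Mathlib

/-!
# Broadcast domination and broadcast irredundance: definitions

All graphs are finite, simple and connected here; distances are `SimpleGraph.dist`.
-/

namespace Q110.BC

variable {V : Type*} [Fintype V] [DecidableEq V]

/-- The eccentricity `e(v)` of `v`: the largest distance from `v`. -/
noncomputable def ecc (G : SimpleGraph V) (v : V) : ℕ :=
  Finset.univ.sup fun u => G.dist v u

/-- A broadcast on a (connected) graph: `f v ≤ e(v)` for every `v`
(and hence `f v ≤ diam G`). -/
def IsBroadcast (G : SimpleGraph V) (f : V → ℕ) : Prop :=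
  ∀ v, f v ≤ ecc G v

/-- The cost of a broadcast. -/
def cost (f : V → ℕ) : ℕ := ∑ v, f v

/-- `u` hears `f` from `v`, where `v` is required to have a positive value. -/
def HearsFrom (G : SimpleGraph V) (f : V → ℕ) (u v : V) : Prop :=
  0 < f v ∧ G.dist u v ≤ f v

/-- `f` is dominating: every vertex hears `f`. -/
def IsDominating (G : SimpleGraph V) (f : V → ℕ) : Prop :=
  ∀ u, ∃ v, HearsFrom G f u v

/-- The broadcast number `γ_b(G)`: the minimum cost of a dominating broadcast. -/
noncomputable def gammaB (G : SimpleGraph V) : ℕ :=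
  sInf {c | ∃ f : V → ℕ, IsBroadcast G f ∧ IsDominating G f ∧ cost f = c}

/-- The private boundary `PB_f(v)`: the vertices `u` at distance at most `f v` from `v` that
hear no vertex under the broadcast obtained from `f` by replacing `f v` by `f v - 1`. -/
def privateBoundary (G : SimpleGraph V) (f : V → ℕ) (v : V) : Set V :=
  {u | G.dist u v ≤ f v ∧ ∀ x, ¬ HearsFrom G (Function.update f v (f v - 1)) u x}

/-- `f` is irredundant: every vertex with positive value has nonempty private boundary. -/
def IsIrredundant (G : SimpleGraph V) (f : V → ℕ) : Prop :=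
  ∀ v, 0 < f v → (privateBoundary G f v).Nonempty

/-- `f` is a maximal irredundant broadcast. -/
def IsMaximalIrredundant (G : SimpleGraph V) (f : V → ℕ) : Prop :=
  IsBroadcast G f ∧ IsIrredundant G f ∧
    ∀ g : V → ℕ, IsBroadcast G g → f ≤ g → g ≠ f → ¬ IsIrredundant G g

/-- The broadcast irredundance number `ir_b(G)`. -/
noncomputable def irB (G : SimpleGraph V) : ℕ :=
  sInf {c | ∃ f : V → ℕ, IsMaximalIrredundant G f ∧ cost f = c}

/-- An `ir_b`-broadcast: a maximal irredundant broadcast of minimum cost. -/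
def IsIrBBroadcast (G : SimpleGraph V) (f : V → ℕ) : Prop :=
  IsMaximalIrredundant G f ∧ cost f = irB G

/-- `r K₂`: the disjoint union of `r` copies of `K₂`. -/
def rK2 (r : ℕ) : SimpleGraph (Fin r × Fin 2) where
  Adj x y := x.1 = y.1 ∧ x.2 ≠ y.2
  symm := ⟨fun _ _ h => ⟨h.1.symm, h.2.symm⟩⟩
  loopless := ⟨fun _ h => h.2 rfl⟩

/-- The property in the question: `V_f^+ = V_f^1` and `G[V_f^+] ≅ r K₂` for some `r`. -/
def IsMatchingBroadcast (G : SimpleGraph V) (f : V → ℕ) : Prop :=
  {v | 0 < f v} = {v | f v = 1} ∧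
    ∃ r : ℕ, Nonempty ((G.induce {v | 0 < f v}) ≃g rK2 r)

/-- The edges of the counterexample: the path `p₀ p₁ ⋯ p₁₄` is
`0 - 1 - 2 - 4 - 5 - 6 - 8 - 10 - 11 - 12 - 13 - 14 - 16 - 17 - 18`;
the vertex `3` forms a triangle with the edge `2 - 4` and the vertex `9` a triangle with the
edge `8 - 10`; the vertices `7` and `15` are leaves attached to `6` and `14`. -/
def edgeList : List (ℕ × ℕ) :=
  [(0, 1), (1, 2), (2, 4), (4, 5), (5, 6), (6, 8), (8, 10), (10, 11), (11, 12), (12, 13),
   (13, 14), (14, 16), (16, 17), (17, 18), (2, 3), (3, 4), (8, 9), (9, 10), (6, 7), (14, 15)]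

/-- The counterexample, a graph with 19 vertices and 20 edges. -/
def H : SimpleGraph (Fin 19) where
  Adj u v := (u.val, v.val) ∈ edgeList ∨ (v.val, u.val) ∈ edgeList
  symm := ⟨fun _ _ h => h.symm⟩
  loopless := ⟨by decide⟩

instance : DecidableRel H.Adj := fun u v =>
  inferInstanceAs (Decidable ((u.val, v.val) ∈ edgeList ∨ (v.val, u.val) ∈ edgeList))

end Q110.BC
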