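import Pool.Agent.Q110.BC.Main

/-! # The 19-vertex counterexample: the `ir_b`-broadcasts of `H` -/

namespace Q110.BC

/-- The values of the unique `ir_b`-broadcast. -/
def F0 (i : ℕ) : ℕ := if i ∈ [2, 4, 8, 10, 16, 17] then 1 else 0

/-- The unique `ir_b`-broadcast of `H`. -/
def f0 : Fin 19 → ℕ := fun v => F0 v

theorem F0_le (i : ℕ) : F0 i ≤ 1 := by
  unfold F0
  split_ifs <;> omega

theorem cost_f0 : cost f0 = 6 := by
  unfold cost f0
  decide +kernel

theorem rep_L0 : Rep L0 F0 := by
  refine ⟨⟨by decide, by decide⟩, by decide⟩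

/-- extension of a function on `Fin 19` by zero -/
def ext (f : Fin 19 → ℕ) (i : ℕ) : ℕ := if h : i < 19 then f ⟨i, h⟩ else 0

theorem ext_val (f : Fin 19 → ℕ) : (fun v : Fin 19 => ext f v) = f := by
  funext v
  simp [ext]

theorem ext_le_of {f : Fin 19 → ℕ} {c : ℕ} (h : ∀ v, f v ≤ c) (i : ℕ) : ext f i ≤ c := by
  unfold ext
  split_ifs with hi
  · exact h _
  · exact Nat.zero_le _

theorem ext_big (f : Fin 19 → ℕ) {i : ℕ} (h : 19 ≤ i) : ext f i = 0 := by
  simp [ext, Nat.not_lt.mpr h]

/-- a strictly larger irredundant broadcast contradicts maximality -/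
theorem not_max {f : Fin 19 → ℕ} (hf : IsMaximalIrredundant H f) {G : ℕ → ℕ}
    (hle : ∀ i < 19, ext f i ≤ G i) (hne : ∃ i < 19, ext f i ≠ G i)
    (hecc : ∀ v : Fin 19, G v ≤ ecc H v) (hG : Irr G) : False := by
  refine hf.2.2 (fun v => G v) hecc ?_ ?_ ((irr_iff G).mpr hG)
  · intro v
    have := hle v v.2
    simpa [ext] using this
  · intro h
    obtain ⟨i, hi, hi2⟩ := hne
    have := congrFun h ⟨i, hi⟩
    apply hi2
    simp only at this
    simp [ext, hi, this]

theorem max_small {f : Fin 19 → ℕ} (hf : IsMaximalIrredundant H f) (hc : cost f ≤ 6) :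
    f = f0 := by
  set F := ext f with hF
  have hf6 : ∀ v, f v ≤ 6 := fun v =>
    le_trans (Finset.single_le_sum (f := f) (fun _ _ => Nat.zero_le _) (Finset.mem_univ v)) hc
  have hF6 : ∀ i, F i ≤ 6 := ext_le_of hf6
  have hF14 : ∀ i, F i ≤ 14 := fun i => le_trans (hF6 i) (by norm_num)
  have hirr : Irr F := by
    rw [← irr_iff, hF, ext_val]
    exact hf.2.1
  have hsum : ∑ i ∈ Finset.Ico 0 19, F i ≤ 6 := by
    rw [← Finset.range_eq_Ico, ← Fin.sum_univ_eq_sum_range]
    refine le_trans (le_of_eq ?_) hc
    unfold cost
    exact Finset.sum_congr rfl fun v _ => congrFun (ext_val f) v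
  have hout : Outcome F := go_sound F 19 0 6 (by norm_num) le_rfl hsum go_full hF6
  rcases hout with ⟨w, hw, hw2⟩ | ⟨j, hj, hj2⟩ | hleaf
  · -- a far away vertex can be added
    exfalso
    have hFw : F w = 0 := by
      by_contra h
      have := hw2 w hw h
      rw [dd_self w hw] at this
      omega
    refine not_max hf (G := Function.update F w 1) ?_ ⟨w, hw, ?_⟩ ?_ ?_
    · intro i _
      by_cases h : i = w
      · subst h
        rw [Function.update_self, ← hF, hFw]
        omega
      · rw [Function.update_of_ne h]
    · rw [Function.update_self, ← hF, hFw]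
      norm_num
    · intro v
      have := seven_le_ecc v
      by_cases h : (v : ℕ) = w
      · rw [h, Function.update_self]
        omega
      · rw [Function.update_of_ne h]
        have := hF6 v
        omega
    · intro v hv hv0
      by_cases h : v = w
      · subst h
        refine ⟨v, hv, ?_, ?_, ?_⟩
        · rw [dd_self v hv]
          exact Nat.zero_le _
        · left
          simp
        · intro x hx hxv hx0
          rw [Function.update_of_ne hxv] at hx0 ⊢
          have := hw2 x hx hx0
          omega
      · rw [Function.update_of_ne h] at hv0 ⊢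
        obtain ⟨u, hu, h1, h2, h3⟩ := hirr v hv hv0
        refine ⟨u, hu, h1, h2, fun x hx hxv hx0 => ?_⟩
        by_cases hxw : x = w
        · subst hxw
          rw [Function.update_self]
          -- u is at distance ≤ F v from v, and w at distance > F v + 1 from v
          have h4 := hw2 v hv hv0
          have tri : dd x v ≤ dd u x + dd u v := by
            have t := H_connected.dist_triangle (u := (⟨x, hx⟩ : Fin 19)) (v := ⟨u, hu⟩)
              (w := ⟨v, hv⟩)
            rw [H_dist, H_dist, H_dist] at t
            have s : dd x u = dd u x := by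
              have s := SimpleGraph.dist_comm (G := H) (u := (⟨x, hx⟩ : Fin 19)) (v := ⟨u, hu⟩)
              rw [H_dist, H_dist] at s
              exact s
            simp only at t
            omega
          omega
        · rw [Function.update_of_ne hxw] at hx0 ⊢
          exact h3 x hx hxv hx0
  · exfalso
    rw [nz_of_irr hF14 (sub_toL F j hj) hirr] at hj2
    exact absurd hj2 (by simp)
  · have hrep := rep_toL F
    -- raising one value
    have raise1 : ∀ v, v < 19 → F v ≠ 0 → nz (pbs (raise v (toL F 19))) = true → False := by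
      intro v hv hv0 hnz
      refine not_max hf (G := Function.update F v (F v + 1)) ?_ ⟨v, hv, ?_⟩ ?_ ?_
      · intro i _
        by_cases h : i = v
        · subst h
          rw [Function.update_self, ← hF]
          omega
        · rw [Function.update_of_ne h]
      · rw [Function.update_self, ← hF]
        omega
      · intro x
        have h7 := seven_le_ecc x
        by_cases h : (x : ℕ) = v
        · rw [h, Function.update_self]
          have := hF6 v
          omega
        · rw [Function.update_of_ne h]
          have := hF6 x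
          omega
      · refine irr_of_nz ?_ (rep_raise hrep hv0) hnz
        intro i
        by_cases h : i = v
        · subst h
          rw [Function.update_self]
          have := hF6 i
          omega
        · rw [Function.update_of_ne h]
          exact hF14 i
    unfold leafOK at hleaf
    rw [Bool.or_eq_true, Bool.or_eq_true, Bool.or_eq_true] at hleaf
    rcases hleaf with ((h | h) | h) | h
    · -- adding a vertex with value one
      exfalso
      rw [List.any_eq_true] at h
      obtain ⟨z, hz, h⟩ := h
      rw [List.mem_range] at hz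
      rw [Bool.and_eq_true, Bool.and_eq_true] at h
      obtain ⟨⟨h1, h2⟩, h3⟩ := h
      have hFz : F z = 0 := by
        by_contra hc0
        rw [List.all_eq_true] at h3
        have := h3 (z, F z) (hrep.2 z hz hc0)
        simp at this
      have hnz : nz (pbs ((z, 1) :: toL F 19)) = true := by
        rw [nz_iff] at h2 ⊢
        intro m hm
        have hpbs : pbs ((z, 1) :: toL F 19) = sdf (sp z 1) (uOf (toL F 19)) ::
            (pbs (toL F 19)).map (fun m => sdf m (bl z 1)) := rfl
        rw [hpbs] at hm
        rcases List.mem_cons.mp hm with rfl | hm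
        · intro hzero
          rw [hzero] at h1
          simp at h1
        · exact h2 m hm
      refine not_max hf (G := Function.update F z 1) ?_ ⟨z, hz, ?_⟩ ?_ ?_
      · intro i _
        by_cases h : i = z
        · subst h
          rw [Function.update_self, ← hF, hFz]
          omega
        · rw [Function.update_of_ne h]
      · rw [Function.update_self, ← hF, hFz]
        norm_num
      · intro v
        have := seven_le_ecc v
        by_cases h : (v : ℕ) = z
        · rw [h, Function.update_self]
          omega
        · rw [Function.update_of_ne h]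
          have := hF6 v
          omega
      · refine irr_of_nz ?_ (rep_cons hrep hz hFz one_ne_zero) hnz
        intro i
        by_cases h : i = z
        · subst h
          rw [Function.update_self]
          norm_num
        · rw [Function.update_of_ne h]
          exact hF14 i
    · exfalso
      rw [List.any_eq_true] at h
      obtain ⟨p, hp, h⟩ := h
      obtain ⟨hp1, hp2, _⟩ := hrep.1.2 p hp
      exact raise1 p.1 hp1 hp2 h
    · -- raising 8 and 10
      exfalso
      rw [Bool.and_eq_true, Bool.and_eq_true, List.any_eq_true, List.any_eq_true] at h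
      obtain ⟨⟨⟨p, hp, hp8⟩, ⟨q, hq, hq10⟩⟩, hnz⟩ := h
      have hp8' : p.1 = 8 := Nat.eq_of_beq_eq_true hp8
      have hq10' : q.1 = 10 := Nat.eq_of_beq_eq_true hq10
      have h8 : F 8 ≠ 0 := by
        have := (hrep.1.2 p hp).2.1
        rwa [hp8'] at this
      have h10 : F 10 ≠ 0 := by
        have := (hrep.1.2 q hq).2.1
        rwa [hq10'] at this
      have hr1 := rep_raise hrep h10
      have h8' : Function.update F 10 (F 10 + 1) 8 ≠ 0 := by
        rw [Function.update_of_ne (by norm_num)]
        exact h8
      have hr2 := rep_raise hr1 h8'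
      refine not_max hf (G := Function.update (Function.update F 10 (F 10 + 1)) 8
        (Function.update F 10 (F 10 + 1) 8 + 1)) ?_ ⟨8, by norm_num, ?_⟩ ?_ ?_
      · intro i _
        by_cases h : i = 8
        · subst h
          rw [Function.update_self, Function.update_of_ne (by norm_num), ← hF]
          omega
        · rw [Function.update_of_ne h]
          by_cases h' : i = 10
          · subst h'
            rw [Function.update_self, ← hF]
            omega
          · rw [Function.update_of_ne h']
      · rw [Function.update_self, Function.update_of_ne (by norm_num), ← hF]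
        omega
      · intro x
        have h7 := seven_le_ecc x
        by_cases h : (x : ℕ) = 8
        · rw [h, Function.update_self, Function.update_of_ne (by norm_num)]
          have := hF6 8
          rw [h] at *
          omega
        · rw [Function.update_of_ne h]
          by_cases h' : (x : ℕ) = 10
          · rw [h', Function.update_self]
            have := hF6 10
            omega
          · rw [Function.update_of_ne h']
            have := hF6 x
            omega
      · refine irr_of_nz ?_ hr2 hnz
        intro i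
        by_cases h : i = 8
        · subst h
          rw [Function.update_self, Function.update_of_ne (by norm_num)]
          have := hF6 8
          omega
        · rw [Function.update_of_ne h]
          by_cases h' : i = 10
          · subst h'
            rw [Function.update_self]
            have := hF6 10
            omega
          · rw [Function.update_of_ne h']
            exact hF14 i
    · have hL : toL F 19 = L0 := by simpa using h
      rw [hL] at hrep
      funext v
      have hv : f v = F v := by simp [hF, ext]
      rw [hv]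
      show F v = F0 v
      by_cases h0 : F v = 0
      · rw [h0]
        by_contra hc0
        have h1 := rep_L0.2 v v.2 (Ne.symm hc0)
        exact (hrep.1.2 _ h1).2.1 h0
      · have h1 := hrep.2 v v.2 h0
        have h2 := (rep_L0.1.2 _ h1).2.2
        exact h2

/-! ### `f0` is maximal irredundant -/

theorem goA_sound (G : ℕ → ℕ) (hG14 : ∀ i, G i ≤ 14) (hirr : Irr G) (vs : List ℕ) :
    ∀ L : List (ℕ × ℕ), Sub L G → (∀ v ∈ vs, v < 19 ∧ G v ≠ 0 ∧ ∀ p ∈ L, p.1 ≠ v) →
      vs.Nodup → goA vs L (pbs L) (uOf L) = true → 
      ∀ i, (i ∈ vs ∨ ∃ p ∈ L, p.1 = i) → ∃ p ∈ L0, p.1 = i ∧ p.2 = G i := by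
  induction vs with
  | nil =>
    intro L hL _ _ h i hi
    unfold goA at h
    have hLL : L = L0 := by simpa using h
    subst hLL
    rcases hi with hi | ⟨p, hp, rfl⟩
    · simp at hi
    · exact ⟨p, hp, rfl, (hL.2 p hp).2.2⟩
  | cons v vs ih =>
    intro L hL hvs hnd h i hi
    rw [List.nodup_cons] at hnd
    obtain ⟨hv19, hv0, hvL⟩ := hvs v List.mem_cons_self
    have hsub : Sub ((v, G v) :: L) G := by
      refine ⟨?_, ?_⟩
      · rw [List.map_cons, List.nodup_cons]
        refine ⟨?_, hL.1⟩
        intro hm
        obtain ⟨p, hp, hp2⟩ := List.mem_map.mp hm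
        exact hvL p hp hp2
      · intro p hp
        rcases List.mem_cons.mp hp with rfl | hp
        · exact ⟨hv19, hv0, rfl⟩
        · exact hL.2 p hp
    unfold goA at h
    rw [List.all_eq_true] at h
    have hG := hG14 v
    have h3 := h (G v - 1) (List.mem_range.mpr (by omega))
    have e1 : G v - 1 + 1 = G v := by omega
    rw [e1] at h3
    have hnz := nz_of_irr hG14 hsub hirr
    have h4 : goA vs ((v, G v) :: L) (pbs ((v, G v) :: L)) (uOf ((v, G v) :: L)) = true := by
      rw [Bool.or_eq_true] at h3
      rcases h3 with h3 | h3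
      · rw [Bool.not_eq_true'] at h3
        exfalso
        have : nz (pbs ((v, G v) :: L)) = false := h3
        rw [hnz] at this
        exact absurd this (by simp)
      · exact h3
    refine ih ((v, G v) :: L) hsub ?_ hnd.2 h4 i ?_
    · intro x hx
      obtain ⟨a, b, c⟩ := hvs x (List.mem_cons_of_mem _ hx)
      refine ⟨a, b, fun p hp => ?_⟩
      rcases List.mem_cons.mp hp with rfl | hp
      · rintro rfl
        exact hnd.1 hx
      · exact c p hp
    · rcases hi with hi | ⟨p, hp, rfl⟩
      · rcases List.mem_cons.mp hi with rfl | hi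
        · right
          exact ⟨(i, G i), List.mem_cons_self, rfl⟩
        · left
          exact hi
      · right
        exact ⟨p, List.mem_cons_of_mem _ hp, rfl⟩

theorem L0_snd : ∀ p ∈ L0, p.2 = 1 := by decide

theorem zs_lt : ∀ z ∈ [0, 1, 3, 5, 6, 7, 9, 11, 12, 13, 14, 15, 18], z < 19 := by decide

theorem zs_ne : ∀ z ∈ [0, 1, 3, 5, 6, 7, 9, 11, 12, 13, 14, 15, 18], ∀ p ∈ L0, p.1 ≠ z := by
  decide

theorem f0_maximal : IsMaximalIrredundant H f0 := by
  refine ⟨?_, ?_, ?_⟩
  · intro v
    have := seven_le_ecc v
    have := F0_le v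
    show F0 v ≤ ecc H v
    omega
  · exact (irr_iff F0).mpr (irr_of_nz (fun i => le_trans (F0_le i) (by norm_num)) rep_L0 nz_L0)
  · intro g hg hle hne hirr
    apply hne
    set G := ext g with hGdef
    have hG14 : ∀ i, G i ≤ 14 := ext_le_of fun v => le_trans (hg v) (ecc_le v)
    have hirrG : Irr G := by
      rw [← irr_iff, hGdef, ext_val]
      exact hirr
    have hG : ∀ v : Fin 19, g v = G v := fun v => by simp [hGdef, ext]
    have hpos : ∀ i ∈ [2, 4, 8, 10, 16, 17], i < 19 ∧ G i ≠ 0 := by
      intro i hi
      have hi19 : i < 19 := by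
        revert i
        decide
      refine ⟨hi19, ?_⟩
      have h1 := hle ⟨i, hi19⟩
      rw [hG] at h1
      have h2 : f0 ⟨i, hi19⟩ = 1 := by
        show F0 i = 1
        unfold F0
        rw [if_pos hi]
      rw [h2] at h1
      simp only at h1
      omega
    have key := goA_sound G hG14 hirrG [2, 4, 8, 10, 16, 17] []
      ⟨by simp, by simp⟩ (fun v hv => ⟨(hpos v hv).1, (hpos v hv).2, by simp⟩) (by decide)
      goA_full
    have hval : ∀ i ∈ [2, 4, 8, 10, 16, 17], G i = 1 := by
      intro i hi
      obtain ⟨p, hp, rfl, hp2⟩ := key i (Or.inl hi)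
      rw [← hp2]
      exact L0_snd p hp
    have hsubL0 : Sub L0 G := by
      refine ⟨by decide, ?_⟩
      intro p hp
      have h1 : p.1 ∈ [2, 4, 8, 10, 16, 17] := by
        revert p
        decide
      have h2 : p.2 = 1 := L0_snd p hp
      exact ⟨(hpos _ h1).1, (hpos _ h1).2, by rw [h2, hval _ h1]⟩
    have hzero : ∀ z ∈ [0, 1, 3, 5, 6, 7, 9, 11, 12, 13, 14, 15, 18], G z = 0 := by
      intro z hz
      by_contra h0
      have hz19 : z < 19 := zs_lt z hz
      have hne' : ∀ p ∈ L0, p.1 ≠ z := zs_ne z hz
      have hsub : Sub ((z, G z) :: L0) G := by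
        refine ⟨?_, ?_⟩
        · rw [List.map_cons, List.nodup_cons]
          refine ⟨?_, hsubL0.1⟩
          intro hm
          obtain ⟨p, hp, hp2⟩ := List.mem_map.mp hm
          exact hne' p hp hp2
        · intro p hp
          rcases List.mem_cons.mp hp with rfl | hp
          · exact ⟨hz19, h0, rfl⟩
          · exact hsubL0.2 p hp
      have h1 := nz_of_irr hG14 hsub hirrG
      have hGz := hG14 z
      have h2 := addA z hz (G z - 1) (by omega)
      have e1 : G z - 1 + 1 = G z := by omega
      rw [e1, h1] at h2
      exact absurd h2 (by simp)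
    funext v
    rw [hG]
    show G v = F0 v
    have hcase : (v : ℕ) ∈ [2, 4, 8, 10, 16, 17] ∨
        (v : ℕ) ∈ [0, 1, 3, 5, 6, 7, 9, 11, 12, 13, 14, 15, 18] := by
      revert v
      decide
    rcases hcase with h | h
    · rw [hval _ h]
      unfold F0
      rw [if_pos h]
    · rw [hzero _ h]
      unfold F0
      rw [if_neg]
      revert v
      decide

theorem irB_H : irB H = 6 := by
  unfold irB
  apply le_antisymm
  · exact Nat.sInf_le ⟨f0, f0_maximal, cost_f0⟩
  · have hne : {c | ∃ f : Fin 19 → ℕ, IsMaximalIrredundant H f ∧ cost f = c}.Nonempty :=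
      ⟨6, f0, f0_maximal, cost_f0⟩
    obtain ⟨f, hf, hc⟩ := Nat.sInf_mem hne
    rw [← hc]
    by_contra hlt
    push Not at hlt
    have := max_small hf (by omega)
    rw [this, cost_f0] at hlt
    omega

theorem isIrB_iff (f : Fin 19 → ℕ) : IsIrBBroadcast H f ↔ f = f0 := by
  unfold IsIrBBroadcast
  rw [irB_H]
  constructor
  · rintro ⟨h1, h2⟩
    exact max_small h1 h2.le
  · rintro rfl
    exact ⟨f0_maximal, cost_f0⟩

/-! ### the broadcast number -/

/-- seven vertices, at most `k` of them within distance `k` of any vertex -/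
def P7 : List ℕ := [0, 3, 7, 9, 12, 15, 18]

theorem packing : ∀ v : Fin 19, ∀ k < 15,
    (Finset.univ.filter fun u : Fin 19 => (u : ℕ) ∈ P7 ∧ dd u v ≤ k).card ≤ k ∨ k = 0 := by
  decide +kernel

theorem seven_le_of_dominating {f : Fin 19 → ℕ} (hf : IsBroadcast H f) (hd : IsDominating H f) :
    7 ≤ cost f := by
  have h7 : (Finset.univ.filter fun u : Fin 19 => (u : ℕ) ∈ P7).card = 7 := by decide +kernel
  rw [← h7]
  have hsub : (Finset.univ.filter fun u : Fin 19 => (u : ℕ) ∈ P7) ⊆
      (Finset.univ.filter fun v : Fin 19 => f v ≠ 0).biUnion fun v =>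
        Finset.univ.filter fun u : Fin 19 => (u : ℕ) ∈ P7 ∧ dd u v ≤ f v := by
    intro u hu
    rw [Finset.mem_filter] at hu
    obtain ⟨v, hv0, hv⟩ := hd u
    rw [Finset.mem_biUnion]
    refine ⟨v, ?_, ?_⟩
    · rw [Finset.mem_filter]
      exact ⟨Finset.mem_univ _, Nat.pos_iff_ne_zero.mp hv0⟩
    · rw [Finset.mem_filter]
      rw [H_dist] at hv
      exact ⟨Finset.mem_univ _, hu.2, hv⟩
  refine le_trans (Finset.card_le_card hsub) (le_trans Finset.card_biUnion_le ?_)
  refine le_trans (Finset.sum_le_sum (g := f) ?_) ?_
  · intro v hv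
    rw [Finset.mem_filter] at hv
    have h14 := le_trans (hf v) (ecc_le v)
    rcases packing v (f v) (by omega) with h | h
    · exact h
    · exact absurd h hv.2
  · unfold cost
    exact Finset.sum_le_sum_of_subset (Finset.filter_subset _ _)

/-- a dominating broadcast of cost seven -/
def g7 : Fin 19 → ℕ := fun v => if (v : ℕ) ∈ [1, 4, 6, 10, 12, 14, 17] then 1 else 0

theorem g7_dom : ∀ u : Fin 19, ∃ v : Fin 19, 0 < g7 v ∧ dd u v ≤ g7 v := by
  decide +kernel

theorem gammaB_H : gammaB H = 7 := by
  have hmem : (7 : ℕ) ∈ {c | ∃ f : Fin 19 → ℕ, IsBroadcast H f ∧ IsDominating H f ∧ cost f = c} := by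
    refine ⟨g7, ?_, ?_, by unfold cost g7; decide +kernel⟩
    · intro v
      have h1 := seven_le_ecc v
      have h2 : g7 v ≤ 1 := by
        unfold g7
        split_ifs <;> omega
      omega
    · intro u
      obtain ⟨v, h1, h2⟩ := g7_dom u
      exact ⟨v, h1, by rw [H_dist]; exact h2⟩
  unfold gammaB
  apply le_antisymm
  · exact Nat.sInf_le hmem
  · obtain ⟨f, hf, hd, hc⟩ := Nat.sInf_mem ⟨7, hmem⟩
    rw [← hc]
    exact seven_le_of_dominating hf hd

/-! ### the induced graph -/

def tbl : Fin 3 × Fin 2 → Fin 19 := fun x =>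
  ![![2, 4], ![8, 10], ![16, 17]] x.1 x.2

theorem tbl_pos : ∀ x, 0 < f0 (tbl x) := by decide +kernel

theorem tbl_inj : ∀ x y, tbl x = tbl y → x = y := by decide +kernel

theorem tbl_surj : ∀ v : Fin 19, 0 < f0 v → ∃ x, tbl x = v := by decide +kernel

theorem tbl_adj : ∀ x y, H.Adj (tbl x) (tbl y) ↔ x.1 = y.1 ∧ x.2 ≠ y.2 := by decide +kernel

noncomputable def iso0 : (H.induce {v | 0 < f0 v}) ≃g rK2 3 := by
  refine SimpleGraph.Iso.symm ⟨Equiv.ofBijective
    (fun x : Fin 3 × Fin 2 => (⟨tbl x, tbl_pos x⟩ : {v | 0 < f0 v})) ⟨?_, ?_⟩, ?_⟩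
  · intro x y h
    exact tbl_inj x y (by simpa using h)
  · rintro ⟨v, hv⟩
    obtain ⟨x, hx⟩ := tbl_surj v hv
    exact ⟨x, by simp [hx]⟩
  · intro x y
    simp only [SimpleGraph.comap_adj, Function.Embedding.subtype_apply]
    exact tbl_adj x y

theorem ones_f0 : {v : Fin 19 | 0 < f0 v} = {v | f0 v = 1} := by
  ext v
  have h := F0_le v
  have h2 : f0 v = F0 v := rfl
  show 0 < f0 v ↔ f0 v = 1
  omega

theorem matching_f0 : IsMatchingBroadcast H f0 :=
  ⟨ones_f0, 3, ⟨iso0⟩⟩

end Q110.BC
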