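import Pool.Agent.Q110.BC.Defs
import Pool.Agent.Q110.BC.Comp

/-! # The 19-vertex counterexample: soundness of the enumeration -/

namespace Q110.BC

/-! ### distances -/

theorem dist_of_table {V : Type*} [Nonempty V] (G : SimpleGraph V) (d : V → V → ℕ)
    (h0 : ∀ u, d u u = 0)
    (h1 : ∀ u v, u ≠ v → ∃ w, G.Adj w v ∧ d u w + 1 = d u v)
    (h2 : ∀ u v w, G.Adj v w → d u v ≤ d u w + 1) :
    G.Connected ∧ ∀ u v, G.dist u v = d u v := by
  have key : ∀ n : ℕ, ∀ u v, d u v = n → ∃ p : G.Walk u v, p.length = n := by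
    intro n
    induction n with
    | zero =>
      intro u v h
      by_cases huv : u = v
      · subst huv
        exact ⟨SimpleGraph.Walk.nil, rfl⟩
      · obtain ⟨w, _, hw⟩ := h1 u v huv
        omega
    | succ n ih =>
      intro u v h
      have huv : u ≠ v := by
        rintro rfl
        rw [h0] at h
        omega
      obtain ⟨w, hw, hd⟩ := h1 u v huv
      obtain ⟨p, hp⟩ := ih u w (by omega)
      refine ⟨p.append (SimpleGraph.Walk.cons hw SimpleGraph.Walk.nil), ?_⟩
      simp [hp]
  have conn : G.Connected := by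
    rw [SimpleGraph.connected_iff]
    refine ⟨fun u v => ?_, inferInstance⟩
    obtain ⟨p, _⟩ := key _ u v rfl
    exact p.reachable
  have low : ∀ (u : V) {a b : V} (p : G.Walk a b), d u b ≤ d u a + p.length := by
    intro u a b p
    induction p with
    | nil => simp
    | cons h p ih =>
      have := h2 u _ _ h.symm
      simp only [SimpleGraph.Walk.length_cons]
      omega
  refine ⟨conn, fun u v => le_antisymm ?_ ?_⟩
  · obtain ⟨p, hp⟩ := key _ u v rfl
    rw [← hp]
    exact SimpleGraph.dist_le p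
  · obtain ⟨p, hp⟩ := (conn.preconnected u v).exists_walk_length_eq_dist
    have := low u p
    rw [h0, hp] at this
    omega

theorem H_connected_dist : H.Connected ∧ ∀ u v : Fin 19, H.dist u v = dd u v := by
  refine dist_of_table H (fun u v => dd u v) ?_ ?_ ?_
  · decide +kernel
  · decide +kernel
  · decide +kernel

theorem H_connected : H.Connected := H_connected_dist.1

theorem H_dist (u v : Fin 19) : H.dist u v = dd u v := H_connected_dist.2 u v

theorem H_ecc (v : Fin 19) : ecc H v = Finset.univ.sup fun u : Fin 19 => dd v u := by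
  unfold ecc
  congr 1
  funext u
  exact H_dist v u

theorem seven_le_ecc (v : Fin 19) : 7 ≤ ecc H v := by
  rw [H_ecc]
  revert v
  decide +kernel

theorem ecc_le (v : Fin 19) : ecc H v ≤ 14 := by
  rw [H_ecc]
  revert v
  decide +kernel

/-! ### characterisation of irredundance -/

theorem mem_privateBoundary {V : Type*} [Fintype V] [DecidableEq V] (G : SimpleGraph V)
    (f : V → ℕ) (v u : V) :
    u ∈ privateBoundary G f v ↔ G.dist u v ≤ f v ∧ (f v ≤ 1 ∨ f v - 1 < G.dist u v) ∧
      ∀ x, x ≠ v → 0 < f x → f x < G.dist u x := by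
  unfold privateBoundary HearsFrom
  simp only [Set.mem_setOf_eq, not_and, not_le]
  refine and_congr_right fun _ => ⟨fun h => ⟨?_, fun x hx h0 => ?_⟩, fun h x hx => ?_⟩
  · have h3 := h v
    simp only [Function.update_self] at h3
    by_cases h4 : f v ≤ 1
    · exact Or.inl h4
    · exact Or.inr (h3 (by omega))
  · have h3 := h x
    rw [Function.update_of_ne hx] at h3
    exact h3 h0
  · by_cases hxv : x = v
    · subst hxv
      simp only [Function.update_self] at hx ⊢
      rcases h.1 with h4 | h4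
      · omega
      · exact h4
    · rw [Function.update_of_ne hxv] at hx ⊢
      exact h.2 x hxv hx

/-- The numerical form of irredundance on `H`. -/
def Irr (F : ℕ → ℕ) : Prop :=
  ∀ v < 19, F v ≠ 0 → ∃ u < 19, dd u v ≤ F v ∧ (F v ≤ 1 ∨ F v - 1 < dd u v) ∧
    ∀ x < 19, x ≠ v → F x ≠ 0 → F x < dd u x

theorem irr_iff (F : ℕ → ℕ) : IsIrredundant H (fun v : Fin 19 => F v) ↔ Irr F := by
  unfold IsIrredundant Irr
  constructor
  · intro h v hv h0
    obtain ⟨u, hu⟩ := h ⟨v, hv⟩ (Nat.pos_of_ne_zero h0)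
    rw [mem_privateBoundary] at hu
    simp only [H_dist] at hu
    refine ⟨u, u.2, hu.1, hu.2.1, fun x hx hxv hx0 => ?_⟩
    exact hu.2.2 ⟨x, hx⟩ (by simpa [Fin.ext_iff] using hxv) (Nat.pos_of_ne_zero hx0)
  · intro h v h0
    obtain ⟨u, hu, h1, h2, h3⟩ := h v v.2 (Nat.pos_iff_ne_zero.mp h0)
    refine ⟨⟨u, hu⟩, ?_⟩
    rw [mem_privateBoundary]
    simp only [H_dist]
    refine ⟨h1, h2, fun x hx hx0 => ?_⟩
    exact h3 x x.2 (by simpa [Fin.ext_iff] using hx) (Nat.pos_iff_ne_zero.mp hx0)

/-! ### bit masks -/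

theorem tb_lor (a b i : ℕ) : (Nat.lor a b).testBit i = (a.testBit i || b.testBit i) :=
  Nat.testBit_or a b i

theorem tb_sdf (a b i : ℕ) : (sdf a b).testBit i = (a.testBit i && !b.testBit i) := by
  unfold sdf
  have h1 : (Nat.xor a (Nat.land a b)).testBit i = (a.testBit i ^^ (Nat.land a b).testBit i) :=
    Nat.testBit_xor a _ i
  have h2 : (Nat.land a b).testBit i = (a.testBit i && b.testBit i) := Nat.testBit_and a b i
  rw [h1, h2]
  cases a.testBit i <;> cases b.testBit i <;> rfl

theorem sdf_zero (a : ℕ) : sdf a 0 = a := by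
  apply Nat.eq_of_testBit_eq
  intro i
  rw [tb_sdf]
  simp

theorem sdf_sdf (a b c : ℕ) : sdf (sdf a b) c = sdf a (Nat.lor b c) := by
  apply Nat.eq_of_testBit_eq
  intro i
  rw [tb_sdf, tb_sdf, tb_sdf, tb_lor]
  cases a.testBit i <;> cases b.testBit i <;> cases c.testBit i <;> rfl

theorem ne_zero_iff_bit (a : ℕ) : a ≠ 0 ↔ ∃ i, a.testBit i = true := by
  constructor
  · intro h
    by_contra hc
    push Not at hc
    apply h
    apply Nat.eq_of_testBit_eq
    intro i
    rw [Nat.zero_testBit]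
    exact Bool.eq_false_iff.mpr (hc i)
  · rintro ⟨i, hi⟩ rfl
    simp at hi

theorem tb_uOf (L : List (ℕ × ℕ)) (i : ℕ) :
    (uOf L).testBit i = true ↔ ∃ q ∈ L, (bl q.1 q.2).testBit i = true := by
  induction L with
  | nil => simp [uOf]
  | cons p L ih =>
    have h : uOf (p :: L) = Nat.lor (bl p.1 p.2) (uOf L) := rfl
    rw [h, tb_lor, Bool.or_eq_true, ih]
    simp

theorem tb_nOf (L : List (ℕ × ℕ)) (i : ℕ) :
    (nOf L).testBit i = true ↔ ∃ q ∈ L, (bl q.1 (q.2 + 1)).testBit i = true := by
  induction L with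
  | nil => simp [nOf]
  | cons p L ih =>
    have h : nOf (p :: L) = Nat.lor (bl p.1 (p.2 + 1)) (nOf L) := rfl
    rw [h, tb_lor, Bool.or_eq_true, ih]
    simp

theorem nz_iff (P : List ℕ) : nz P = true ↔ ∀ m ∈ P, m ≠ 0 := by
  unfold nz
  rw [List.all_eq_true]
  refine forall₂_congr fun m _ => ?_
  cases h : Nat.beq m 0
  · simp only [Bool.not_false, true_iff]
    intro h2
    subst h2
    simp at h
  · have : m = 0 := Nat.eq_of_beq_eq_true h
    simp [this]

/-- The main combinatorial meaning of the masks `pbs L`. -/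
theorem pbs_iff_aux (L : List (ℕ × ℕ)) (hL : (L.map Prod.fst).Nodup) (X : ℕ) :
    (∀ m ∈ pbs L, sdf m X ≠ 0) ↔ ∀ p ∈ L, ∃ u, (sp p.1 p.2).testBit u = true ∧
      X.testBit u = false ∧ ∀ q ∈ L, q.1 ≠ p.1 → (bl q.1 q.2).testBit u = false := by
  induction L generalizing X with
  | nil => simp [pbs]
  | cons p0 L ih =>
    have hnd := hL
    rw [List.map_cons, List.nodup_cons] at hnd
    obtain ⟨hp0, hnd⟩ := hnd
    have hp0' : ∀ q ∈ L, q.1 ≠ p0.1 := by
      intro q hq h
      apply hp0
      rw [← h]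
      exact List.mem_map_of_mem hq
    have hpbs : pbs (p0 :: L) = sdf (sp p0.1 p0.2) (uOf L) ::
        (pbs L).map (fun m => sdf m (bl p0.1 p0.2)) := rfl
    rw [hpbs]
    simp only [List.mem_cons, List.mem_map, forall_eq_or_imp, forall_exists_index, and_imp,
      forall_apply_eq_imp_iff₂]
    refine and_congr ?_ ?_
    · rw [sdf_sdf, ne_zero_iff_bit]
      refine exists_congr fun u => ?_
      rw [tb_sdf, tb_lor]
      constructor
      · intro h
        rw [Bool.and_eq_true, Bool.not_eq_true', Bool.or_eq_false_iff] at h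
        refine ⟨h.1, h.2.2, fun hne => absurd rfl hne, fun q hq _ => ?_⟩
        by_contra hc
        have : (uOf L).testBit u = true := (tb_uOf L u).mpr ⟨q, hq, by simpa using hc⟩
        rw [h.2.1] at this
        exact absurd this (by simp)
      · rintro ⟨h1, h2, -, h3⟩
        rw [Bool.and_eq_true, Bool.not_eq_true', Bool.or_eq_false_iff]
        refine ⟨h1, ?_, h2⟩
        by_contra hc
        obtain ⟨q, hq, hq2⟩ := (tb_uOf L u).mp (by simpa using hc)
        rw [h3 q hq (hp0' q hq)] at hq2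
        exact absurd hq2 (by simp)
    · have ih2 := ih hnd (Nat.lor (bl p0.1 p0.2) X)
      have e : (∀ a ∈ pbs L, sdf (sdf a (bl p0.1 p0.2)) X ≠ 0) ↔
          ∀ m ∈ pbs L, sdf m (Nat.lor (bl p0.1 p0.2) X) ≠ 0 := by
        refine forall₂_congr fun m _ => ?_
        rw [sdf_sdf]
      rw [e, ih2]
      refine forall₂_congr fun p hp => ?_
      refine exists_congr fun u => ?_
      rw [tb_lor, Bool.or_eq_false_iff]
      constructor
      · rintro ⟨h1, ⟨h2, h3⟩, h4⟩
        exact ⟨h1, h3, fun _ => h2, h4⟩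
      · rintro ⟨h1, h3, h2, h4⟩
        exact ⟨h1, ⟨h2 (hp0' p hp).symm, h3⟩, h4⟩

theorem pbs_iff (L : List (ℕ × ℕ)) (hL : (L.map Prod.fst).Nodup) :
    nz (pbs L) = true ↔ ∀ p ∈ L, ∃ u, (sp p.1 p.2).testBit u = true ∧
      ∀ q ∈ L, q.1 ≠ p.1 → (bl q.1 q.2).testBit u = false := by
  rw [nz_iff]
  have h := pbs_iff_aux L hL 0
  simp only [sdf_zero] at h
  rw [h]
  simp

/-! ### lists representing (parts of) a broadcast -/

/-- `L` lists (some of) the vertices with nonzero value, together with the values. -/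
def Sub (L : List (ℕ × ℕ)) (F : ℕ → ℕ) : Prop :=
  (L.map Prod.fst).Nodup ∧ ∀ p ∈ L, p.1 < 19 ∧ F p.1 ≠ 0 ∧ p.2 = F p.1

/-- `L` lists all vertices with nonzero value. -/
def Rep (L : List (ℕ × ℕ)) (F : ℕ → ℕ) : Prop :=
  Sub L F ∧ ∀ i < 19, F i ≠ 0 → (i, F i) ∈ L

theorem lt_of_testBit {a i : ℕ} (ha : a < 2 ^ 19) (h : a.testBit i = true) : i < 19 := by
  by_contra hc
  have h1 : a < 2 ^ i := lt_of_lt_of_le ha (Nat.pow_le_pow_right (by norm_num) (by omega))
  rw [Nat.testBit_lt_two_pow h1] at h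
  exact absurd h (by simp)

/-- hereditary property: a sublist of an irredundant broadcast has nonzero masks -/
theorem nz_of_irr {L : List (ℕ × ℕ)} {F : ℕ → ℕ} (hF : ∀ i, F i ≤ 14) (hL : Sub L F)
    (h : Irr F) : nz (pbs L) = true := by
  rw [pbs_iff L hL.1]
  intro p hp
  obtain ⟨hp1, hp2, hp3⟩ := hL.2 p hp
  obtain ⟨u, hu, h1, h2, h3⟩ := h p.1 hp1 hp2
  have hFp := hF p.1
  refine ⟨u, ?_, fun q hq hqp => ?_⟩
  · rw [hp3, sp_testBit p.1 hp1 (F p.1) (by omega) (by omega) u hu]
    exact decide_eq_true ⟨h1, h2⟩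
  · obtain ⟨hq1, hq2, hq3⟩ := hL.2 q hq
    have hFq := hF q.1
    rw [hq3, bl_testBit q.1 hq1 (F q.1) (by omega) u hu]
    have := h3 q.1 hq1 hqp hq2
    exact decide_eq_false (by omega)

theorem irr_of_nz {L : List (ℕ × ℕ)} {F : ℕ → ℕ} (hF : ∀ i, F i ≤ 14) (hL : Rep L F)
    (h : nz (pbs L) = true) : Irr F := by
  rw [pbs_iff L hL.1.1] at h
  intro v hv hv0
  obtain ⟨u, h1, h2⟩ := h (v, F v) (hL.2 v hv hv0)
  have hFv := hF v
  have hu : u < 19 := lt_of_testBit (sp_lt v hv (F v) (by omega)) h1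
  simp only at h1 h2
  rw [sp_testBit v hv (F v) (by omega) (by omega) u hu] at h1
  have h1' := of_decide_eq_true h1
  refine ⟨u, hu, h1'.1, h1'.2, fun x hx hxv hx0 => ?_⟩
  have h3 := h2 (x, F x) (hL.2 x hx hx0) hxv
  simp only at h3
  have hFx := hF x
  rw [bl_testBit x hx (F x) (by omega) u hu] at h3
  have := of_decide_eq_false h3
  omega

theorem rep_cons {L : List (ℕ × ℕ)} {F : ℕ → ℕ} (hL : Rep L F) {z k : ℕ} (hz : z < 19)
    (hF : F z = 0) (hk : k ≠ 0) : Rep ((z, k) :: L) (Function.update F z k) := by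
  have hne : ∀ p ∈ L, p.1 ≠ z := by
    intro p hp h
    have := (hL.1.2 p hp).2.1
    rw [h] at this
    exact this hF
  refine ⟨⟨?_, ?_⟩, ?_⟩
  · rw [List.map_cons, List.nodup_cons]
    refine ⟨?_, hL.1.1⟩
    intro h
    obtain ⟨p, hp, hp2⟩ := List.mem_map.mp h
    exact hne p hp hp2
  · intro p hp
    rcases List.mem_cons.mp hp with rfl | hp
    · exact ⟨hz, by simpa using hk, by simp⟩
    · rw [Function.update_of_ne (hne p hp)]
      exact hL.1.2 p hp
  · intro i hi hi0
    by_cases h : i = z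
    · subst h
      simp
    · rw [Function.update_of_ne h] at hi0 ⊢
      exact List.mem_cons_of_mem _ (hL.2 i hi hi0)

theorem rep_raise {L : List (ℕ × ℕ)} {F : ℕ → ℕ} (hL : Rep L F) {v : ℕ} (hv : F v ≠ 0) :
    Rep (raise v L) (Function.update F v (F v + 1)) := by
  have hfst : ∀ p : ℕ × ℕ, (bif Nat.beq p.1 v then (p.1, p.2 + 1) else p).1 = p.1 := by
    intro p
    cases h : Nat.beq p.1 v <;> simp
  have hmap : (raise v L).map Prod.fst = L.map Prod.fst := by
    unfold raise
    rw [List.map_map]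
    exact List.map_congr_left fun p _ => hfst p
  refine ⟨⟨?_, ?_⟩, ?_⟩
  · rw [hmap]
    exact hL.1.1
  · intro p hp
    obtain ⟨q, hq, rfl⟩ := List.mem_map.mp hp
    obtain ⟨h1, h2, h3⟩ := hL.1.2 q hq
    rw [hfst]
    by_cases h : q.1 = v
    · subst h
      refine ⟨h1, by simp, ?_⟩
      simp [h3]
    · have hb : Nat.beq q.1 v = false := by
        cases hb : Nat.beq q.1 v
        · rfl
        · exact absurd (Nat.eq_of_beq_eq_true hb) h
      rw [Function.update_of_ne h, hb]
      exact ⟨h1, h2, h3⟩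
  · intro i hi hi0
    by_cases h : i = v
    · subst h
      have := hL.2 i hi hv
      rw [Function.update_self]
      refine List.mem_map.mpr ⟨(i, F i), this, ?_⟩
      simp
    · rw [Function.update_of_ne h] at hi0 ⊢
      refine List.mem_map.mpr ⟨(i, F i), hL.2 i hi hi0, ?_⟩
      have hb : Nat.beq i v = false := by
        cases hb : Nat.beq i v
        · rfl
        · exact absurd (Nat.eq_of_beq_eq_true hb) h
      simp only [hb, cond_false]

/-- the canonical list -/
def toL (F : ℕ → ℕ) : ℕ → List (ℕ × ℕ)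
  | 0 => []
  | j + 1 => if F j = 0 then toL F j else (j, F j) :: toL F j

theorem mem_toL (F : ℕ → ℕ) (j : ℕ) (p : ℕ × ℕ) :
    p ∈ toL F j ↔ p.1 < j ∧ F p.1 ≠ 0 ∧ p.2 = F p.1 := by
  induction j with
  | zero => simp [toL]
  | succ j ih =>
    unfold toL
    split_ifs with h
    · rw [ih]
      constructor
      · rintro ⟨h1, h2, h3⟩
        exact ⟨by omega, h2, h3⟩
      · rintro ⟨h1, h2, h3⟩
        refine ⟨?_, h2, h3⟩
        by_contra hc
        have : p.1 = j := by omega
        rw [this] at h2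
        exact h2 h
    · rw [List.mem_cons, ih]
      constructor
      · rintro (rfl | ⟨h1, h2, h3⟩)
        · exact ⟨by simp, h, rfl⟩
        · exact ⟨by omega, h2, h3⟩
      · rintro ⟨h1, h2, h3⟩
        by_cases hc : p.1 = j
        · left
          ext
          · exact hc
          · rw [h3, hc]
        · right
          exact ⟨by omega, h2, h3⟩

theorem nodup_toL (F : ℕ → ℕ) (j : ℕ) : ((toL F j).map Prod.fst).Nodup := by
  induction j with
  | zero => simp [toL]
  | succ j ih =>
    unfold toL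
    split_ifs with h
    · exact ih
    · rw [List.map_cons, List.nodup_cons]
      refine ⟨?_, ih⟩
      intro hm
      obtain ⟨p, hp, hp2⟩ := List.mem_map.mp hm
      have := ((mem_toL F j p).mp hp).1
      simp only at hp2
      omega

theorem sub_toL (F : ℕ → ℕ) (j : ℕ) (hj : j ≤ 19) : Sub (toL F j) F := by
  refine ⟨nodup_toL F j, fun p hp => ?_⟩
  obtain ⟨h1, h2, h3⟩ := (mem_toL F j p).mp hp
  exact ⟨by omega, h2, h3⟩

theorem rep_toL (F : ℕ → ℕ) : Rep (toL F 19) F :=
  ⟨sub_toL F 19 le_rfl, fun i hi h0 => (mem_toL F 19 _).mpr ⟨hi, h0, rfl⟩⟩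

/-! ### soundness of the search -/

/-- The possible outcomes of the search. -/
def Outcome (F : ℕ → ℕ) : Prop :=
  (∃ w < 19, ∀ i < 19, F i ≠ 0 → F i + 1 < dd w i) ∨
  (∃ j ≤ 19, nz (pbs (toL F j)) = false) ∨
  leafOK (toL F 19) (pbs (toL F 19)) (uOf (toL F 19)) = true

theorem exists_bit_of_ne_full {a : ℕ} (ha : a < 2 ^ 19) (h : Nat.beq a 524287 = false) :
    ∃ w < 19, a.testBit w = false := by
  by_contra hc
  push Not at hc
  have : a = 524287 := by
    apply Nat.eq_of_testBit_eq
    intro i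
    have h2 : (524287 : ℕ) = 2 ^ 19 - 1 := by norm_num
    rw [h2, Nat.testBit_two_pow_sub_one]
    by_cases hi : i < 19
    · have := hc i hi
      simp only [ne_eq, Bool.not_eq_false] at this
      rw [this]
      simp [hi]
    · have h1 : a < 2 ^ i :=
        lt_of_lt_of_le ha (Nat.pow_le_pow_right (by norm_num) (by omega))
      rw [Nat.testBit_lt_two_pow h1]
      simp [hi]
  subst this
  simp at h

theorem nOf_lt (L : List (ℕ × ℕ)) : nOf L < 2 ^ 19 := by
  induction L with
  | nil => simp [nOf]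
  | cons p L ih =>
    have h : nOf (p :: L) = Nat.lor (bl p.1 (p.2 + 1)) (nOf L) := rfl
    rw [h]
    exact Nat.or_lt_two_pow (bl_lt _ _) ih

theorem toL_succ_zero {F : ℕ → ℕ} {j : ℕ} (h : F j = 0) : toL F (j + 1) = toL F j := by
  conv_lhs => unfold toL
  rw [if_pos h]

theorem toL_succ_pos {F : ℕ → ℕ} {j : ℕ} (h : F j ≠ 0) :
    toL F (j + 1) = (j, F j) :: toL F j := by
  conv_lhs => unfold toL
  rw [if_neg h]

theorem go_sound (F : ℕ → ℕ) (m : ℕ) : ∀ (j left : ℕ), j + m = 19 → left ≤ 6 →
    ∑ i ∈ Finset.Ico j 19, F i ≤ left →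
    go m left (toL F j) (pbs (toL F j)) (uOf (toL F j)) (nOf (toL F j)) = true → 
    (∀ i, F i ≤ 6) → Outcome F := by
  induction m with
  | zero =>
    intro j left hj _ _ h hF
    have : j = 19 := by omega
    subst this
    unfold go at h
    rw [Bool.or_eq_true] at h
    rcases h with h | h
    · left
      rw [Bool.not_eq_true'] at h
      obtain ⟨w, hw, hw2⟩ := exists_bit_of_ne_full (nOf_lt _) h
      refine ⟨w, hw, fun i hi h0 => ?_⟩
      have h3 : ¬ (nOf (toL F 19)).testBit w = true := by simp [hw2]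
      rw [tb_nOf] at h3
      push Not at h3
      have h4 := h3 (i, F i) ((mem_toL F 19 _).mpr ⟨hi, h0, rfl⟩)
      simp only at h4
      have hFi := hF i
      rw [bl_testBit i hi (F i + 1) (by omega) w hw] at h4
      simp only [ne_eq, decide_eq_true_eq] at h4
      omega
    · right
      right
      exact h
  | succ m ih =>
    intro j left hj hleft hsum h hF
    have hj18 : 18 - m = j := by omega
    have hjlt : j < 19 := by omega
    have hsum2 : F j + ∑ i ∈ Finset.Ico (j + 1) 19, F i ≤ left := by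
      rw [← Finset.sum_eq_sum_Ico_succ_bot hjlt]
      exact hsum
    unfold go at h
    rw [hj18] at h
    cases hb : Nat.beq (Nat.lor (nOf (toL F j)) (fu j left)) 524287
    · -- pruned
      left
      have hlt : Nat.lor (nOf (toL F j)) (fu j left) < 2 ^ 19 :=
        Nat.or_lt_two_pow (nOf_lt _) (fu_lt _ _)
      obtain ⟨w, hw, hw2⟩ := exists_bit_of_ne_full hlt hb
      rw [tb_lor, Bool.or_eq_false_iff] at hw2
      refine ⟨w, hw, fun i hi h0 => ?_⟩
      have hFi := hF i
      by_cases hij : i < j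
      · have h3 : ¬ (nOf (toL F j)).testBit w = true := by simp [hw2.1]
        rw [tb_nOf] at h3
        push Not at h3
        have h4 := h3 (i, F i) ((mem_toL F j _).mpr ⟨hij, h0, rfl⟩)
        simp only at h4
        rw [bl_testBit i hi (F i + 1) (by omega) w hw] at h4
        simp only [ne_eq, decide_eq_true_eq] at h4
        omega
      · have hle : F i ≤ left :=
          le_trans (Finset.single_le_sum (f := F) (fun _ _ => Nat.zero_le _)
            (Finset.mem_Ico.mpr ⟨by omega, hi⟩)) hsum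
        obtain ⟨l, rfl⟩ : ∃ l, left = l + 1 := ⟨left - 1, by omega⟩
        have := fu_spec j hjlt l (by omega) w hw i hi hw2.2 (by omega)
        omega
    · rw [hb] at h
      simp only [cond_true, Bool.and_eq_true] at h
      obtain ⟨h1, h2⟩ := h
      by_cases h0 : F j = 0
      · refine ih (j + 1) left (by omega) hleft (by omega) ?_ hF
        rw [toL_succ_zero h0]
        exact h1
      · rw [List.all_eq_true] at h2
        have h3 := h2 (F j - 1) (List.mem_range.mpr (by omega))
        have e1 : F j - 1 + 1 = F j := by omega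
        have e2 : F j - 1 + 2 = F j + 1 := by omega
        rw [e1, e2] at h3
        rw [Bool.or_eq_true] at h3
        rcases h3 with h3 | h3
        · right
          left
          refine ⟨j + 1, by omega, ?_⟩
          rw [toL_succ_pos h0]
          rw [Bool.not_eq_true'] at h3
          exact h3
        · refine ih (j + 1) (left - F j) (by omega) (by omega) (by omega) ?_ hF
          rw [toL_succ_pos h0]
          exact h3

end Q110.BC
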